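import Pool.Agent.H54.RM.Main

/-!
# The simplicial volume of products of closed hyperbolic surfaces

For every `n ≥ 1` the constant `cₙ = ‖M‖/Vol(M)` (for closed manifolds `M` locally isometric to `(ℍ²)ⁿ`; here
for products of `n` closed hyperbolic surfaces, which suffices by the proportionality principle) is
`1 / (πⁿ vₙ)`, where `vₙ = lpVal n` is the value of an explicit finite linear programme with rational data. So
`πⁿ cₙ` is a positive rational number.

The linear programme: a ranked planar binary tree with `m` labelled leaves is a cyclic order of the
leaves together with the divisions of the set of leaves given by the internal edges of a planar binary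
tree, in a total order (the ranks). `treeVol n` is the antisymmetrised product of the cyclic orders, a
function on the `n`-tuples of ranked planar binary trees with `2n + 1` leaves, and `vₙ` is the distance of
`treeVol n` in the supremum norm to the coboundaries of functions on the `n`-tuples of ranked planar binary
trees with `2n` leaves.
-/

set_option autoImplicit false

open scoped BigOperators UpperHalfPlane MatrixGroups ENNReal

namespace Pool.Agent.Results.MP_4e2386_gt.LinearProgramme

open SimplVol

theorem result (n : ℕ) (hn : 1 ≤ n) : ∃ q : ℚ, 0 < q ∧ lpVal n = q ∧
    ∀ Γ : Fin n → Subgroup SL(2, ℝ), (∀ j, IsSurfaceGroup (Γ j)) →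
      (∀ j, CompactSpace (Surf (Γ j))) →
      normRatio Γ = ENNReal.ofReal (1 / (Real.pi ^ n * q)) :=
  main n hn

end Pool.Agent.Results.MP_4e2386_gt.LinearProgramme
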