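import Pool.Agent.H74.SV.UB
import Pool.Agent.H74.SV.LC

/-!
# The growth of the simplicial volume of manifolds locally isometric to `(ℍ²)ⁿ`

For closed hyperbolic surfaces `Σⱼ = ℍ/Γⱼ` and `M = Σ₁ × ⋯ × Σₙ`:
`(2n)!/(n! 152ⁿ) ≤ ‖M‖/Vol(M) ≤ π²ⁿ √(2n)! ∏ ‖Σⱼ‖/Area(Σⱼ)`. As `‖Σⱼ‖/Area(Σⱼ) = 1/π` and
`cₙ = ‖M‖/Vol(M)`: `(n/152)ⁿ ≤ cₙ ≤ (2πn)ⁿ`, the `n`-th root of `cₙ` is of exact order `n`.
-/

set_option autoImplicit false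

open scoped BigOperators UpperHalfPlane MatrixGroups Nat ENNReal

namespace Pool.Agent.Results.MP_4e2386_gt.OrderOfGrowth

open SimplVol

theorem result (n : ℕ) (hn : 1 ≤ n) (Γ : Fin n → Subgroup SL(2, ℝ))
    (hΓ : ∀ j, IsSurfaceGroup (Γ j)) :
    ENNReal.ofReal (((2 * n)! : ℝ) / ((n ! : ℝ) * 152 ^ n)) ≤ normRatio Γ ∧
      normRatio Γ ≤
        ENNReal.ofReal (Real.pi ^ (2 * n) * Real.sqrt ((2 * n)! : ℝ)) * ∏ j, surfRatio (Γ j) := by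
  refine ⟨le_normRatio' Γ hΓ, ?_⟩
  rw [show ((2 * n)! : ℝ) = ((n * 2)! : ℝ) by rw [mul_comm 2 n]]
  exact normRatio_le hn Γ hΓ

end Pool.Agent.Results.MP_4e2386_gt.OrderOfGrowth
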