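import Pool.Agent.H29.C3.Fin3

/-!
# The simplicial volume of products of three closed hyperbolic surfaces

For closed hyperbolic surfaces `Σⱼ = ℍ/Γⱼ`, `j = 1, 2, 3`, and `M = Σ₁ × Σ₂ × Σ₃`:
`‖M‖/Vol(M) ≥ 135/(23 π³)`, so `c₃ ≥ 135/(23 π³)`; as `‖Σⱼ‖/Area(Σⱼ) = 1/π`, equivalently
`‖Σ₁ × Σ₂ × Σ₃‖ ≥ (135/23) ‖Σ₁‖ ‖Σ₂‖ ‖Σ₃‖`.

The proof: the volume class is represented by the antisymmetrised product of the orientation cocycles of the
circle plus the coboundary of an explicit function of three cyclic orders of six points (with values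
in `ℤ/1890`), such that the sum has supremum norm `23/135` on the triples of cyclic orders of seven points; this is
checked by the kernel for all `720 · 720` pairs of orders (the first order is standard by symmetry).
-/

set_option autoImplicit false

open scoped UpperHalfPlane MatrixGroups ENNReal

namespace Pool.Agent.Results.MP_4e2386_gt.ThreeSurfaces

open SimplVol

/-- **Products of three closed hyperbolic surfaces.** -/
theorem result (Γ : Fin 3 → Subgroup SL(2, ℝ)) (hΓ : ∀ j, IsSurfaceGroup (Γ j))
    (hc : ∀ j, CompactSpace (Surf (Γ j))) :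
    ENNReal.ofReal (135 / (23 * Real.pi ^ 3)) ≤ normRatio Γ :=
  C3V.normRatio_three Γ hΓ hc

end Pool.Agent.Results.MP_4e2386_gt.ThreeSurfaces
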